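import Pool.Agent.W907.SG.Stmts

/-!
# Betti numbers of the product with a 3-type set (project SG)
-/

set_option autoImplicit false

open Module Pool.Agent.W907.SG

namespace Pool.Agent.W721.SG.ML

section
variable {V X : Type} [Fintype V] [LinearOrder V] [Fintype X]

/-- the Betti numbers of the zero module -/
lemma beta_zero {F M : Type} [Field F] [AddCommGroup M] [Module F M] [Subsingleton M]
    (G : SimpleGraph V) (ρ : V → M →ₗ[F] M) (A S : Set V) (i : ℕ) : beta G ρ A S i = 0 := by
  unfold beta
  have : finrank F (ZZ G ρ A S i) = 0 := finrank_zero_of_subsingleton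
  omega

/-- the Betti numbers are invariant under isomorphism -/
lemma beta_iso (hS : S_SUB) {F M1 M2 : Type} [Field F] [AddCommGroup M1] [Module F M1]
    [FiniteDimensional F M1] [AddCommGroup M2] [Module F M2] [FiniteDimensional F M2]
    (G : SimpleGraph V) (ρ1 : V → M1 →ₗ[F] M1) (ρ2 : V → M2 →ₗ[F] M2) (f : M1 →ₗ[F] M2)
    (h2 : (2 : F) ≠ 0) (hi : ∀ v m, ρ2 v (ρ2 v m) = m)
    (hc : ∀ u v, G.Adj u v → ∀ m, ρ2 u (ρ2 v m) = ρ2 v (ρ2 u m))
    (hf : ∀ v m, f (ρ1 v m) = ρ2 v (f m)) (hinj : Function.Injective f)
    (hsur : Function.Surjective f) (i : ℕ) :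
    beta G ρ2 Set.univ ∅ i ≤ beta G ρ1 Set.univ ∅ i := by
  have h := hS V F M1 M2 PUnit G ρ1 ρ2 (fun _ => 0) f 0 h2 hi hc hf (by intro v m; rfl) hinj
    (fun x => ⟨0, rfl⟩) (by
      rw [LinearMap.ker_zero, LinearMap.range_eq_top]
      exact hsur) i
  rw [beta_zero (M := PUnit) G (fun _ => 0) Set.univ ∅ i] at h
  omega

/-- the representation on functions `X → N` -/
def rp {F N : Type} [Field F] [AddCommGroup N] [Module F N] (a : V → X → X) (σ : V → N →ₗ[F] N)
    (v : V) : (X → N) →ₗ[F] (X → N) where
  toFun f x := σ v (f (a v x))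
  map_add' f g := by
    funext x
    simp
  map_smul' c f := by
    funext x
    simp

omit [Fintype V] [LinearOrder V] [Fintype X] in
lemma rp_apply {F N : Type} [Field F] [AddCommGroup N] [Module F N] (a : V → X → X)
    (σ : V → N →ₗ[F] N) (v : V) (f : X → N) (x : X) : rp a σ v f x = σ v (f (a v x)) := rfl

end

section
variable {V X : Type} [Fintype V] [LinearOrder V] [Fintype X] (G : SimpleGraph V)
  (a : V → X → X) (sgn : V → X → Bool)

/-- the twisting function -/
def chi (ε : V → ZMod 3) (x : X) : ZMod 3 := ∏ v, if sgn v x then ε v else 1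

omit [Fintype X] in
lemma chi_act {ε : V → ZMod 3} (hε : ∀ v, ε v * ε v = 1)
    (h1 : ∀ v x, sgn v (a v x) = !(sgn v x)) (h2 : ∀ u v, u ≠ v → ∀ x, sgn u (a v x) = sgn u x)
    (v : V) (x : X) : ε v * chi sgn ε (a v x) = chi sgn ε x := by
  unfold chi
  rw [← Finset.mul_prod_erase Finset.univ _ (Finset.mem_univ v),
    ← Finset.mul_prod_erase Finset.univ (fun v => if sgn v x then ε v else 1) (Finset.mem_univ v)]
  have e1 : ∏ u ∈ Finset.univ.erase v, (if sgn u (a v x) then ε u else 1) =
      ∏ u ∈ Finset.univ.erase v, (if sgn u x then ε u else 1) := by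
    refine Finset.prod_congr rfl fun u hu => ?_
    rw [h2 u v (Finset.ne_of_mem_erase hu) x]
  rw [e1, ← mul_assoc]
  congr 1
  rw [h1]
  cases sgn v x
  · simp [hε v]
  · simp

omit [Fintype X] in
lemma chi_sq {ε : V → ZMod 3} (hε : ∀ v, ε v * ε v = 1) (x : X) :
    chi sgn ε x * chi sgn ε x = 1 := by
  unfold chi
  rw [← Finset.prod_mul_distrib]
  refine Finset.prod_eq_one fun v _ => ?_
  split_ifs
  · exact hε v
  · simp

/-- functions with signs -/
lemma beta_sign (hS : S_SUB) (ha : ∀ v x, a v (a v x) = x)
    (hac : ∀ u v, G.Adj u v → ∀ x, a u (a v x) = a v (a u x))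
    (h1 : ∀ v x, sgn v (a v x) = !(sgn v x)) (h2 : ∀ u v, u ≠ v → ∀ x, sgn u (a v x) = sgn u x)
    (ε : V → ZMod 3) (hε : ∀ v, ε v * ε v = 1) (i : ℕ) :
    beta G (rp a (fun v => ε v • (LinearMap.id : ZMod 3 →ₗ[ZMod 3] ZMod 3))) Set.univ ∅ i ≤
      beta G (pull (ZMod 3) a) Set.univ ∅ i := by
  refine beta_iso hS G (pull (ZMod 3) a) _
    { toFun := fun f x => chi sgn ε x * f x
      map_add' := fun f g => by funext x; simp [mul_add]
      map_smul' := fun c f => by funext x; simp [mul_left_comm] } (by decide) ?_ ?_ ?_ ?_ ?_ i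
  · intro v m
    funext x
    rw [rp_apply, rp_apply, ha]
    simp only [LinearMap.smul_apply, LinearMap.id_apply, smul_eq_mul]
    rw [← mul_assoc, hε, one_mul]
  · intro u v huv m
    funext x
    rw [rp_apply, rp_apply, rp_apply, rp_apply, hac u v huv]
    simp only [LinearMap.smul_apply, LinearMap.id_apply, smul_eq_mul]
    ring
  · intro v m
    funext x
    show chi sgn ε x * m (a v x) = ε v * (chi sgn ε (a v x) * m (a v x))
    rw [← mul_assoc, chi_act a sgn hε h1 h2]
  · intro f g hfg
    funext x
    have h3 : chi sgn ε x * f x = chi sgn ε x * g x := congrFun hfg x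
    have h4 : chi sgn ε x * (chi sgn ε x * f x) = chi sgn ε x * (chi sgn ε x * g x) := by rw [h3]
    rwa [← mul_assoc, ← mul_assoc, chi_sq sgn hε, one_mul, one_mul] at h4
  · intro g
    refine ⟨fun x => chi sgn ε x * g x, ?_⟩
    funext x
    show chi sgn ε x * (chi sgn ε x * g x) = g x
    rw [← mul_assoc, chi_sq sgn hε, one_mul]

/-- the general bound -/
theorem gen (hS : S_SUB) (hL : S_LINE) (ha : ∀ v x, a v (a v x) = x)
    (hac : ∀ u v, G.Adj u v → ∀ x, a u (a v x) = a v (a u x))
    (h1 : ∀ v x, sgn v (a v x) = !(sgn v x)) (h2 : ∀ u v, u ≠ v → ∀ x, sgn u (a v x) = sgn u x)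
    (i : ℕ) : ∀ (n : ℕ) (N : Type) [AddCommGroup N] [Module (ZMod 3) N]
    [FiniteDimensional (ZMod 3) N], finrank (ZMod 3) N = n → ∀ σ : V → N →ₗ[ZMod 3] N,
    (∀ v m, σ v (σ v m) = m) → (∀ u v, G.Adj u v → ∀ m, σ u (σ v m) = σ v (σ u m)) →
    (∀ l : List V, EvenWord l → ∃ k : ℕ, ∀ x, (fun y => l.foldr (fun v => σ v) y)^[3 ^ k] x = x) →
    beta G (rp a σ) Set.univ ∅ i ≤ n * beta G (pull (ZMod 3) a) Set.univ ∅ i := by
  intro n
  induction n with
  | zero =>
    intro N _ _ _ hN σ _ _ _
    haveI : Subsingleton N := finrank_zero_iff.1 hN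
    rw [beta_zero]
    exact Nat.zero_le _
  | succ n ih =>
    intro N _ _ _ hN σ hσ hσc hσ3
    haveI : Nontrivial N := nontrivial_of_finrank_pos (R := ZMod 3) (by omega)
    obtain ⟨x0, hx0, hx⟩ := hL V N σ hσ hσ3
    obtain ⟨L, hLd⟩ : ∃ L : Submodule (ZMod 3) N, L = Submodule.span (ZMod 3) {x0} := ⟨_, rfl⟩
    have hε : ∀ v, ∃ e : ZMod 3, e * e = 1 ∧ σ v x0 = e • x0 := by
      intro v
      rcases hx v with h | h
      · exact ⟨1, by decide, by rw [h, one_smul]⟩
      · exact ⟨-1, by decide, by rw [h, neg_one_smul]⟩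
    choose ε hε1 hε2 using hε
    have hLle : ∀ v, L ≤ L.comap (σ v) := by
      intro v
      rw [hLd, Submodule.span_le, Set.singleton_subset_iff]
      show σ v x0 ∈ Submodule.span (ZMod 3) {x0}
      rw [hε2]
      exact Submodule.smul_mem _ _ (Submodule.mem_span_singleton_self x0)
    have hq : ∀ v (m : N), L.mapQ L (σ v) (hLle v) (L.mkQ m) = L.mkQ (σ v m) := fun v m => rfl
    have hLf : finrank (ZMod 3) (N ⧸ L) = n := by
      have h3 := Submodule.finrank_quotient_add_finrank L
      have h4 : finrank (ZMod 3) L = 1 := by rw [hLd]; exact finrank_span_singleton hx0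
      omega
    have hfold : ∀ (l : List V) (m : N),
        l.foldr (fun v => L.mapQ L (σ v) (hLle v)) (L.mkQ m) = L.mkQ (l.foldr (fun v => σ v) m) := by
      intro l m
      induction l with
      | nil => rfl
      | cons v l ihl => rw [List.foldr_cons, List.foldr_cons, ihl, hq]
    have hih := ih (N ⧸ L) hLf (fun v => L.mapQ L (σ v) (hLle v))
      (by
        intro v m
        obtain ⟨m, rfl⟩ := L.mkQ_surjective m
        rw [hq, hq, hσ])
      (by
        intro u v huv m
        obtain ⟨m, rfl⟩ := L.mkQ_surjective m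
        rw [hq, hq, hq, hq, hσc u v huv])
      (by
        intro l hl
        obtain ⟨k, hk⟩ := hσ3 l hl
        refine ⟨k, fun x => ?_⟩
        obtain ⟨m, rfl⟩ := L.mkQ_surjective x
        have h5 : ∀ j : ℕ, (fun y => l.foldr (fun v => L.mapQ L (σ v) (hLle v)) y)^[j] (L.mkQ m) =
            L.mkQ ((fun y => l.foldr (fun v => σ v) y)^[j] m) := by
          intro j
          induction j with
          | zero => rfl
          | succ j ihj => rw [Function.iterate_succ_apply', Function.iterate_succ_apply', ihj, hfold]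
        rw [h5, hk])
    have hsub := hS V (ZMod 3) (X → ZMod 3) (X → N) (X → N ⧸ L) G
      (rp a (fun v => ε v • (LinearMap.id : ZMod 3 →ₗ[ZMod 3] ZMod 3))) (rp a σ)
      (rp a (fun v => L.mapQ L (σ v) (hLle v)))
      { toFun := fun f x => f x • x0
        map_add' := fun f g => by funext x; simp [add_smul]
        map_smul' := fun c f => by funext x; simp [mul_smul] }
      { toFun := fun f x => L.mkQ (f x)
        map_add' := fun f g => by funext x; simp
        map_smul' := fun c f => by funext x; simp }
      (by decide)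
      (by
        intro v m
        funext x
        rw [rp_apply, rp_apply, ha, hσ])
      (by
        intro u v huv m
        funext x
        rw [rp_apply, rp_apply, rp_apply, rp_apply, hac u v huv, hσc u v huv])
      (by
        intro v m
        funext x
        show (ε v * m (a v x)) • x0 = σ v (m (a v x) • x0)
        rw [map_smul, hε2, smul_smul, mul_comm])
      (by
        intro v m
        funext x
        rfl)
      (by
        intro f g hfg
        funext x
        have h3 : f x • x0 = g x • x0 := congrFun hfg x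
        exact smul_left_injective (ZMod 3) hx0 h3)
      (by
        intro g
        choose f hf using fun x => L.mkQ_surjective (g x)
        exact ⟨f, funext hf⟩)
      (by
        ext f
        rw [LinearMap.mem_range, LinearMap.mem_ker]
        constructor
        · rintro ⟨g, rfl⟩
          funext x
          show L.mkQ (g x • x0) = 0
          rw [Submodule.mkQ_apply, Submodule.Quotient.mk_eq_zero, hLd]
          exact Submodule.smul_mem _ _ (Submodule.mem_span_singleton_self x0)
        · intro h
          have h3 : ∀ x, ∃ r : ZMod 3, r • x0 = f x := by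
            intro x
            have h4 : L.mkQ (f x) = 0 := congrFun h x
            rw [Submodule.mkQ_apply, Submodule.Quotient.mk_eq_zero, hLd,
              Submodule.mem_span_singleton] at h4
            exact h4
          choose g hg using h3
          exact ⟨g, funext hg⟩) i
    have hsg := beta_sign G a sgn hS ha hac h1 h2 ε hε1 i
    calc _ ≤ _ := hsub
      _ ≤ beta G (pull (ZMod 3) a) Set.univ ∅ i + n * beta G (pull (ZMod 3) a) Set.univ ∅ i :=
          Nat.add_le_add hsg hih
      _ = _ := by ring

end

/-- iterates of the pull-back along a word -/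
lemma foldr_pull {V Y : Type} (b : V → Y → Y) (l : List V) (m : Y → ZMod 3) :
    l.foldr (fun v => pull (ZMod 3) b v) m = fun y => m (l.reverse.foldr b y) := by
  induction l with
  | nil => rfl
  | cons v l ih =>
    rw [List.foldr_cons, ih]
    funext y
    rw [pull_apply, List.reverse_cons, List.foldr_append]
    rfl

theorem main (hS : S_SUB) (hL : S_LINE) : S_ML := by
  intro V X Y _ _ _ _ G a sgn b ha hac h1 h2 hb hbc hb3 i
  have hσ : ∀ v (m : Y → ZMod 3), pull (ZMod 3) b v (pull (ZMod 3) b v m) = m := by
    intro v m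
    funext y
    rw [pull_apply, pull_apply, hb]
  have hσc : ∀ u v, G.Adj u v → ∀ m : Y → ZMod 3,
      pull (ZMod 3) b u (pull (ZMod 3) b v m) = pull (ZMod 3) b v (pull (ZMod 3) b u m) := by
    intro u v huv m
    funext y
    rw [pull_apply, pull_apply, pull_apply, pull_apply, hbc u v huv]
  have hgen := gen G a sgn hS hL ha hac h1 h2 i (Fintype.card Y) (Y → ZMod 3)
    (by rw [finrank_fintype_fun_eq_card]) (pull (ZMod 3) b) hσ hσc
    (by
      intro l hl
      have hl' : EvenWord l.reverse := by
        intro χ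
        rw [List.map_reverse]
        exact (List.Perm.prod_eq (List.reverse_perm _)).trans (hl χ)
      obtain ⟨k, hk⟩ := hb3 l.reverse hl'
      refine ⟨k, fun m => ?_⟩
      have h5 : ∀ (j : ℕ) (m : Y → ZMod 3),
          (fun m => l.foldr (fun v => pull (ZMod 3) b v) m)^[j] m =
          fun y => m ((fun y => l.reverse.foldr b y)^[j] y) := by
        intro j
        induction j with
        | zero => intro m; rfl
        | succ j ihj =>
          intro m
          rw [Function.iterate_succ_apply, ihj, foldr_pull]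
          funext y
          rw [Function.iterate_succ_apply']
      rw [h5]
      funext y
      rw [hk])
  refine le_trans ?_ hgen
  refine beta_iso hS G (rp a (pull (ZMod 3) b)) _
    { toFun := fun f z => f z.1 z.2
      map_add' := fun f g => rfl
      map_smul' := fun c f => rfl } (by decide) ?_ ?_ ?_ ?_ ?_ i
  · intro v m
    funext z
    rw [pull_apply, pull_apply]
    simp only [ha, hb]
  · intro u v huv m
    funext z
    rw [pull_apply, pull_apply, pull_apply, pull_apply]
    simp only [hac u v huv, hbc u v huv]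
  · intro v m
    rfl
  · intro f g hfg
    funext x y
    exact congrFun hfg (x, y)
  · intro g
    exact ⟨fun x y => g (x, y), rfl⟩

end Pool.Agent.W721.SG.ML
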